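import Pool.Agent.Helper30.UP.St

/-!
# Project UP (MP_e73f90_co), module D2: the bound from the chain lemma
-/

set_option autoImplicit false

noncomputable section

namespace Pool.Agent.Helper38.UP

open Finset Pool.Agent.Helper30.UP
open scoped Classical

theorem amgm {ι : Type} (I : Finset ι) (z : ι → ℝ) (r : ℕ) (hr : 1 ≤ r) (hI : I.card = r)
    (hz : ∀ i ∈ I, 0 ≤ z i) : ∏ i ∈ I, z i ≤ ((∑ i ∈ I, z i) / r) ^ r := by
  have hr0 : (0 : ℝ) < r := by exact_mod_cast hr
  have hs : ∑ _i ∈ I, (1 : ℝ) = r := by rw [sum_const, nsmul_eq_mul, hI, mul_one]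
  have h := Real.geom_mean_le_arith_mean I (fun _ => (1 : ℝ)) z (fun _ _ => zero_le_one)
    (by rw [hs]; exact hr0) hz
  simp only [Real.rpow_one, one_mul] at h
  rw [hs] at h
  have hp : 0 ≤ ∏ i ∈ I, z i := prod_nonneg hz
  calc ∏ i ∈ I, z i = ((∏ i ∈ I, z i) ^ ((r : ℝ)⁻¹)) ^ r := by
        rw [← Real.rpow_natCast, ← Real.rpow_mul hp, inv_mul_cancel₀ hr0.ne', Real.rpow_one]
    _ ≤ ((∑ i ∈ I, z i) / r) ^ r := pow_le_pow_left₀ (Real.rpow_nonneg hp _) h r

theorem hD2 (h1 : StD1) : StD2 := by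
  intro K r κ hK hr
  refine ⟨(2 * K : ℝ) ^ K * 2 ^ (r - 1), ⌈2 * K * |κ|⌉₊ + ⌈|κ|⌉₊ + 1, ?_⟩
  intro n hn c k s W hk hcard hF hwt hOm
  have hκ : 0 ≤ κ := (abs_nonneg _).trans (hF 0)
  rw [abs_of_nonneg hκ] at hn
  have hKp : (1 : ℝ) ≤ K := by exact_mod_cast hK
  have hK0 : (0 : ℝ) < K := by linarith
  have hn1 : (2 * K * κ : ℝ) + κ + 1 ≤ n := by
    have e1 := Nat.le_ceil (2 * K * κ : ℝ)
    have e2 := Nat.le_ceil κ
    have e3 : ((⌈2 * K * κ⌉₊ + ⌈κ⌉₊ + 1 : ℕ) : ℝ) ≤ n := by exact_mod_cast hn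
    push_cast at e3
    linarith
  have hn2 : (1 : ℝ) ≤ n := by nlinarith [mul_nonneg hK0.le hκ]
  have hn3 : κ ≤ n := by nlinarith [mul_nonneg hK0.le hκ]
  have hn4 : 2 * K * κ < (n : ℝ) := by linarith
  set h : Fin k → ℝ := fun j => (Nat.card (perp (W j)) : ℝ) with hh
  have hh0 : ∀ j, 0 ≤ h j := fun j => Nat.cast_nonneg _
  have hhn : ∀ j, (n : ℝ) / K ≤ h j := by
    intro j
    rw [div_le_iff₀ hK0, mul_comm]
    have := hcard j
    show (n : ℝ) ≤ K * (Nat.card (perp (W j)) : ℝ)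
    exact_mod_cast this
  have hnK : 2 * κ < (n : ℝ) / K := by
    rw [lt_div_iff₀ hK0]; linarith
  -- the sum of all orders
  have hF0 : |(n : ℝ) - ∑ j, h j| ≤ κ := by
    have := hF 0
    rw [Fh_eq, wt_zero] at this
    have hJ : Jx W (0 : E c) = univ := by
      unfold Jx
      rw [filter_true_of_mem]
      intro j _
      exact (W j).zero_mem
    rw [hJ] at this
    simpa using this
  -- only zero is in all subspaces
  have hall : ∀ x, (∀ i, x ∈ W i) → x = 0 := by
    intro x hx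
    by_contra hx0
    have hJ : Jx W x = univ := by
      unfold Jx
      rw [filter_true_of_mem]
      intro j _
      exact hx j
    have h2 := hF x
    rw [hJ, Fh_eq] at h2
    have h3 := abs_le.1 h2
    have h4 := abs_le.1 hF0
    have h5 : (n : ℝ) ≤ K * wt s x := by exact_mod_cast hwt x hx0
    have h6 : (wt s x : ℝ) ≤ κ := by linarith [h3.1, h4.2]
    nlinarith
  -- no long chain
  have hchain : ¬ Chn W ⊤ (r + 1) := by
    rintro ⟨x, hx, hc⟩
    have hlt : ∀ i j : Fin (r + 1), i < j → wt s (x j) < wt s (x i) := by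
      intro i j hij
      have hss := hc i j hij
      have hsub := hss.1
      obtain ⟨l, hl1, hl2⟩ := Finset.exists_of_ssubset hss
      have e1 := abs_le.1 (hF (x i))
      have e2 := abs_le.1 (hF (x j))
      have e3 : ∑ a ∈ Jx W (x i), h a + h l ≤ ∑ a ∈ Jx W (x j), h a := by
        rw [← sum_erase_add _ _ hl1]
        refine add_le_add ?_ le_rfl
        refine sum_le_sum_of_subset_of_nonneg ?_ fun a _ _ => hh0 a
        intro a ha
        rw [mem_erase]
        refine ⟨fun hal => hl2 (hal ▸ ha), hsub ha⟩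
      rw [Fh_eq] at e1 e2
      change _ ∧ (n : ℝ) - 2 * wt s (x i) - ∑ a ∈ Jx W (x i), h a ≤ κ at e1
      change -κ ≤ (n : ℝ) - 2 * wt s (x j) - ∑ a ∈ Jx W (x j), h a ∧ _ at e2
      have e4 := hhn l
      have e5 : (wt s (x j) : ℝ) < wt s (x i) := by linarith [e1.2, e2.1]
      exact_mod_cast e5
    have hinj : Function.Injective (fun i : Fin (r + 1) => wt s (x i)) := by
      intro i j hij
      rcases lt_trichotomy i j with hl | hl | hl
      · exact absurd hij (hlt i j hl).ne'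
      · exact hl
      · exact absurd hij (hlt j i hl).ne
    have hcard2 : (univ.image (fun i : Fin (r + 1) => wt s (x i))).card = r + 1 := by
      rw [card_image_of_injective _ hinj, card_univ, Fintype.card_fin]
    have hsub : univ.image (fun i : Fin (r + 1) => wt s (x i)) ⊆ Om s := by
      intro w hw
      rw [mem_image] at hw
      obtain ⟨i, _, rfl⟩ := hw
      unfold Om
      rw [mem_image]
      exact ⟨x i, by simp [(hx i).2], rfl⟩
    have := card_le_card hsub
    omega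
  -- the lemma
  have hH1 : (1 : ℝ) ≤ n + κ := by linarith
  have hsum : ∑ j, h j ≤ n + κ := by
    have := (abs_le.1 hF0).1
    linarith
  have hHj : ∀ i, (Nat.card (perp (W i)) : ℝ) ≤ n + κ := by
    intro i
    exact (single_le_sum (f := h) (fun j _ => hh0 j) (mem_univ i)).trans hsum
  rcases h1 K c k W ((n : ℝ) + κ) hK hk hH1 hHj hall r ⊤ hchain with ⟨I, hI, -, hle⟩ | hle
  · left
    rw [card_top] at hle
    push_cast at hle
    refine hle.trans ((amgm I h r hr hI fun i _ => hh0 i).trans ?_)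
    have hr0 : (0 : ℝ) < r := by exact_mod_cast hr
    refine pow_le_pow_left₀ (div_nonneg (sum_nonneg fun i _ => hh0 i) hr0.le) ?_ r
    refine div_le_div_of_nonneg_right ?_ hr0.le
    exact (sum_le_sum_of_subset_of_nonneg (subset_univ I) fun i _ _ => hh0 i).trans hsum
  · right
    rw [card_top] at hle
    push_cast at hle
    obtain ⟨m, rfl⟩ : ∃ m, r = m + 1 := ⟨r - 1, by omega⟩
    rw [Nat.add_sub_cancel]
    have hH0 : (0 : ℝ) < n + κ := by linarith
    rw [pow_succ ((n : ℝ) + κ), ← mul_assoc] at hle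
    have hle2 := le_of_mul_le_mul_right hle hH0
    refine hle2.trans ?_
    have h2K : (1 : ℝ) ≤ 2 * K := by linarith
    have hcK : (univ.filter (fun i => ¬ (⊤ : Submodule (ZMod 2) (E c)) ≤ W i)).card ≤ K := by
      refine (card_le_univ _).trans ?_
      rw [Fintype.card_fin]
      exact hk
    calc (2 * K : ℝ) ^ (univ.filter (fun i => ¬ (⊤ : Submodule (ZMod 2) (E c)) ≤ W i)).card *
          ((n : ℝ) + κ) ^ m
        ≤ (2 * K : ℝ) ^ K * (2 * (n : ℝ)) ^ m :=
          mul_le_mul (pow_le_pow_right₀ h2K hcK)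
            (pow_le_pow_left₀ hH0.le (by linarith) m) (by positivity) (by positivity)
      _ = (2 * K : ℝ) ^ K * 2 ^ m * (n : ℝ) ^ m := by rw [mul_pow 2 (n : ℝ) m, mul_assoc]

end Pool.Agent.Helper38.UP
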