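import Pool.Agent.Helper9.UP.StC

/-!
# Project UP: module VA
-/

set_option autoImplicit false

noncomputable section

namespace Pool.Agent.Helper38.UP

open Finset Polynomial
open Pool.Agent.Helper9.UP
open Pool.Agent.Helper9.TW (gm)

theorem mem_bx (X ω : ℝ) (i p : ℕ) : p ∈ bx X ω i ↔
    p.Prime ∧ X ^ ((i : ℝ) * ω) ≤ (p : ℝ) ∧ (p : ℝ) < X ^ (((i : ℝ) + 1) * ω) := by
  unfold bx
  rw [mem_filter, mem_range, Nat.lt_ceil]
  tauto

theorem telesc (j0 J : ℕ) (h1 : 1 ≤ j0) (h : j0 ≤ J) :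
    ∑ i ∈ Ico j0 J, gm i = Real.log J - Real.log j0 := by
  induction J, h using Nat.le_induction with
  | base => simp
  | succ J hJ ih =>
    rw [Finset.sum_Ico_succ_top hJ, ih]
    have hJ0 : (0 : ℝ) < (J : ℝ) := by
      exact_mod_cast lt_of_lt_of_le h1 hJ
    unfold gm
    rw [Real.log_div (by positivity) (by positivity)]
    push_cast
    ring

theorem hVA : StVA := by
  classical
  intro ω ε j0 Nm N w w'' f hω hj0 hε hεω hNm hreg hw hww hwN h2
  obtain ⟨hX, hg, hr⟩ := hreg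
  have hX0 : (0 : ℝ) < (N : ℝ) := by linarith
  have hX1 : (1 : ℝ) < (N : ℝ) := by linarith
  have hL : 0 < Real.log (N : ℝ) := Real.log_pos hX1
  have hw2 : (2 : ℝ) ≤ (w'' : ℝ) := by exact_mod_cast h2
  have hlw : 0 < Real.log (w'' : ℝ) := Real.log_pos (by linarith)
  have hlwL : Real.log (w'' : ℝ) ≤ Real.log (N : ℝ) :=
    Real.log_le_log (by linarith) (by exact_mod_cast hwN)
  have hj0' : (1 : ℝ) ≤ (j0 : ℝ) := by exact_mod_cast hj0
  have hV0 : ∀ v, 0 ≤ VV f v := by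
    intro v
    unfold VV
    exact Finset.prod_nonneg fun p _ => by linarith [(hg p).2]
  have hsub : Qf f w ⊆ Qf f w'' := by
    unfold Qf
    exact Finset.filter_subset_filter _ (Finset.Ioc_subset_Ioc_right hww.le)
  have hVV : VV f w'' ≤ Real.exp (-∑ p ∈ Qf f w'' \ Qf f w, gf f p) * VV f w := by
    have e1 : VV f w'' = (∏ p ∈ Qf f w'' \ Qf f w, (1 - gf f p)) * VV f w := by
      unfold VV
      rw [Finset.prod_sdiff hsub]
    rw [e1]
    refine mul_le_mul_of_nonneg_right ?_ (hV0 w)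
    rw [← Finset.sum_neg_distrib, Real.exp_sum]
    refine Finset.prod_le_prod (fun p _ => by linarith [(hg p).2]) fun p _ => ?_
    exact Real.one_sub_le_exp_neg _
  have hωL : 0 < ω * Real.log (N : ℝ) := mul_pos hω hL
  set J : ℕ := ⌊Real.log (w'' : ℝ) / (ω * Real.log (N : ℝ))⌋₊ with hJdef
  have hJ1 : (J : ℝ) ≤ Real.log (w'' : ℝ) / (ω * Real.log (N : ℝ)) :=
    Nat.floor_le (by positivity)
  have hJ2 : Real.log (w'' : ℝ) / (ω * Real.log (N : ℝ)) < (J : ℝ) + 1 :=
    Nat.lt_floor_add_one _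
  have hJ1' : (J : ℝ) * (ω * Real.log (N : ℝ)) ≤ Real.log (w'' : ℝ) := (le_div_iff₀ hωL).1 hJ1
  have hJ2' : Real.log (w'' : ℝ) < ((J : ℝ) + 1) * (ω * Real.log (N : ℝ)) :=
    (div_lt_iff₀ hωL).1 hJ2
  have he3 : (2 : ℝ) ≤ Real.exp 3 := by
    have := Real.add_one_le_exp (3 : ℝ)
    linarith
  have he4 : Real.exp 4 = Real.exp 3 * Real.exp 1 := by
    rw [← Real.exp_add]; norm_num
  have he1 : (1 : ℝ) ≤ Real.exp 1 := by
    have := Real.add_one_le_exp (1 : ℝ)
    linarith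
  by_cases hJ : J ≤ j0
  · have hJ' : (J : ℝ) ≤ (j0 : ℝ) := by exact_mod_cast hJ
    have h3 : Real.log (w'' : ℝ) ≤ 2 * ((j0 : ℝ) * ω * Real.log (N : ℝ)) := by
      have : ((J : ℝ) + 1) * (ω * Real.log (N : ℝ)) ≤ (2 * (j0 : ℝ)) * (ω * Real.log (N : ℝ)) :=
        mul_le_mul_of_nonneg_right (by linarith) hωL.le
      nlinarith
    have h4 : (1 : ℝ) / 2 ≤ (j0 : ℝ) * ω * Real.log (N : ℝ) / Real.log (w'' : ℝ) := by
      rw [le_div_iff₀ hlw]
      linarith
    have h5 : (1 : ℝ) ≤ Real.exp 4 * ((j0 : ℝ) * ω * Real.log (N : ℝ) / Real.log (w'' : ℝ)) := by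
      have h6 : (2 : ℝ) ≤ Real.exp 4 := by rw [he4]; nlinarith
      nlinarith
    have h7 : VV f w'' ≤ VV f w := by
      refine hVV.trans ?_
      have h8 : Real.exp (-∑ p ∈ Qf f w'' \ Qf f w, gf f p) ≤ 1 := by
        rw [Real.exp_le_one_iff]
        have := Finset.sum_nonneg (fun p (_ : p ∈ Qf f w'' \ Qf f w) => (hg p).1)
        linarith
      nlinarith [hV0 w]
    nlinarith [hV0 w]
  · have hJ' : j0 < J := not_le.1 hJ
    have hJr : (j0 : ℝ) < (J : ℝ) := by exact_mod_cast hJ'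
    have hJ0 : (0 : ℝ) < (J : ℝ) := by linarith
    have hJω : (J : ℝ) * ω ≤ 1 := by
      have h3 : (J : ℝ) * ω * Real.log (N : ℝ) ≤ 1 * Real.log (N : ℝ) := by
        nlinarith
      exact le_of_mul_le_mul_right h3 hL
    have hJNm : J ≤ Nm := by
      have : (J : ℝ) * ω ≤ (Nm : ℝ) * ω := hJω.trans hNm
      have h3 : (J : ℝ) ≤ (Nm : ℝ) := le_of_mul_le_mul_right this hω
      exact_mod_cast h3
    -- the primes of the boxes
    have hdisj : (↑(Ico j0 J) : Set ℕ).PairwiseDisjoint (bx (N : ℝ) ω) := by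
      have key : ∀ i i' : ℕ, i < i' → Disjoint (bx (N : ℝ) ω i) (bx (N : ℝ) ω i') := by
        intro i i' hii
        rw [Finset.disjoint_left]
        intro p hp hp'
        rw [mem_bx] at hp hp'
        have h3 : (N : ℝ) ^ (((i : ℝ) + 1) * ω) ≤ (N : ℝ) ^ ((i' : ℝ) * ω) := by
          apply Real.rpow_le_rpow_of_exponent_le hX1.le
          have : ((i : ℝ) + 1) ≤ (i' : ℝ) := by exact_mod_cast hii
          exact mul_le_mul_of_nonneg_right this hω.le
        linarith [hp.2.2, hp'.2.1]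
      intro i _ i' _ hne
      rcases lt_or_gt_of_ne hne with h | h
      · exact key i i' h
      · exact (key i' i h).symm
    have hlow : Real.log J - Real.log j0 - 1 ≤ ∑ p ∈ Qf f w'' \ Qf f w, gf f p := by
      have h1 : ∑ p ∈ (Ico j0 J).biUnion (bx (N : ℝ) ω), gf f p ≤
          ∑ p ∈ Qf f w'' \ Qf f w, gf f p := by
        rw [← Finset.sum_filter_add_sum_filter_not ((Ico j0 J).biUnion (bx (N : ℝ) ω))
          (fun p => p ≤ 2 * f.natDegree)]
        have h3 : ∑ p ∈ ((Ico j0 J).biUnion (bx (N : ℝ) ω)).filter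
            (fun p => p ≤ 2 * f.natDegree), gf f p = 0 := by
          refine Finset.sum_eq_zero fun p hp => ?_
          rw [mem_filter] at hp
          unfold gf
          rw [if_pos hp.2]
        rw [h3, zero_add]
        refine Finset.sum_le_sum_of_subset_of_nonneg ?_ fun p _ _ => (hg p).1
        intro p hp
        rw [mem_filter, mem_biUnion] at hp
        obtain ⟨⟨i, hi, hpi⟩, hpd⟩ := hp
        rw [mem_Ico] at hi
        rw [mem_bx] at hpi
        have hpw : w < p := by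
          have h4 : (N : ℝ) ^ ((j0 : ℝ) * ω) ≤ (p : ℝ) := by
            refine le_trans ?_ hpi.2.1
            apply Real.rpow_le_rpow_of_exponent_le hX1.le
            exact mul_le_mul_of_nonneg_right (by exact_mod_cast hi.1) hω.le
          have h5 : ⌈(N : ℝ) ^ ((j0 : ℝ) * ω)⌉₊ ≤ p := Nat.ceil_le.2 h4
          have h6 : 0 < ⌈(N : ℝ) ^ ((j0 : ℝ) * ω)⌉₊ := Nat.ceil_pos.2 (by positivity)
          omega
        have hpw2 : p ≤ w'' := by
          have h4 : (p : ℝ) < (w'' : ℝ) := by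
            refine lt_of_lt_of_le hpi.2.2 ?_
            have h5 : (N : ℝ) ^ (((i : ℝ) + 1) * ω) ≤ (N : ℝ) ^ ((J : ℝ) * ω) := by
              apply Real.rpow_le_rpow_of_exponent_le hX1.le
              have : ((i : ℝ) + 1) ≤ (J : ℝ) := by exact_mod_cast hi.2
              exact mul_le_mul_of_nonneg_right this hω.le
            refine h5.trans ?_
            rw [← Real.log_le_log_iff (by positivity) (by linarith), Real.log_rpow hX0]
            nlinarith
          exact_mod_cast h4.le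
        rw [mem_sdiff]
        unfold Qf
        rw [mem_filter, mem_filter, mem_Ioc, mem_Ioc]
        refine ⟨⟨⟨by omega, hpw2⟩, hpi.1⟩, ?_⟩
        rintro ⟨⟨_, h7⟩, _⟩
        omega
      refine le_trans ?_ h1
      rw [Finset.sum_biUnion hdisj]
      have h3 : ∑ i ∈ Ico j0 J, (gm i - ε) ≤ ∑ i ∈ Ico j0 J, ∑ p ∈ bx (N : ℝ) ω i, gf f p := by
        refine Finset.sum_le_sum fun i hi => ?_
        rw [mem_Ico] at hi
        have := (abs_le.1 (hr i hi.1 (by omega))).1
        linarith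
      refine le_trans ?_ h3
      rw [Finset.sum_sub_distrib, telesc j0 J hj0 hJ'.le, Finset.sum_const, Nat.card_Ico, nsmul_eq_mul,
        Nat.cast_sub hJ'.le]
      have h4 : ((J : ℝ) - (j0 : ℝ)) * ε ≤ 1 := by
        have : ((J : ℝ) - (j0 : ℝ)) * ε ≤ (J : ℝ) * ω := by
          refine mul_le_mul (by linarith) hεω hε hJ0.le
        linarith
      linarith
    have h5 : Real.exp (-∑ p ∈ Qf f w'' \ Qf f w, gf f p) ≤ Real.exp 1 * ((j0 : ℝ) / J) := by
      have h6 : Real.exp (-∑ p ∈ Qf f w'' \ Qf f w, gf f p) ≤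
          Real.exp (1 + (Real.log j0 - Real.log J)) := Real.exp_le_exp.2 (by linarith)
      refine h6.trans ?_
      rw [Real.exp_add, Real.exp_sub, Real.exp_log (by linarith), Real.exp_log hJ0]
    have h7 : (1 : ℝ) / J ≤ 2 * (ω * Real.log (N : ℝ)) / Real.log (w'' : ℝ) := by
      rw [div_le_div_iff₀ hJ0 hlw]
      have : ((J : ℝ) + 1) * (ω * Real.log (N : ℝ)) ≤ (2 * (J : ℝ)) * (ω * Real.log (N : ℝ)) :=
        mul_le_mul_of_nonneg_right (by linarith) hωL.le
      nlinarith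
    have h8 : Real.exp 1 * ((j0 : ℝ) / J) ≤
        Real.exp 4 * ((j0 : ℝ) * ω * Real.log (N : ℝ) / Real.log (w'' : ℝ)) := by
      have h9 : (j0 : ℝ) / J ≤ 2 * ((j0 : ℝ) * ω * Real.log (N : ℝ) / Real.log (w'' : ℝ)) := by
        have := mul_le_mul_of_nonneg_left h7 (by linarith : (0 : ℝ) ≤ (j0 : ℝ))
        calc (j0 : ℝ) / J = (j0 : ℝ) * (1 / J) := by ring
          _ ≤ (j0 : ℝ) * (2 * (ω * Real.log (N : ℝ)) / Real.log (w'' : ℝ)) := this
          _ = 2 * ((j0 : ℝ) * ω * Real.log (N : ℝ) / Real.log (w'' : ℝ)) := by ring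
      have h10 : 0 ≤ (j0 : ℝ) * ω * Real.log (N : ℝ) / Real.log (w'' : ℝ) := by positivity
      calc Real.exp 1 * ((j0 : ℝ) / J)
          ≤ Real.exp 1 * (2 * ((j0 : ℝ) * ω * Real.log (N : ℝ) / Real.log (w'' : ℝ))) :=
            mul_le_mul_of_nonneg_left h9 (Real.exp_pos _).le
        _ = (2 * Real.exp 1) * ((j0 : ℝ) * ω * Real.log (N : ℝ) / Real.log (w'' : ℝ)) := by ring
        _ ≤ (Real.exp 3 * Real.exp 1) * ((j0 : ℝ) * ω * Real.log (N : ℝ) / Real.log (w'' : ℝ)) :=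
            mul_le_mul_of_nonneg_right (mul_le_mul_of_nonneg_right he3 (Real.exp_pos _).le) h10
        _ = _ := by rw [← he4]
    exact hVV.trans (mul_le_mul_of_nonneg_right (h5.trans h8) (hV0 w))

end Pool.Agent.Helper38.UP
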